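import Pool.Agent.Helper81.Tok2.Goals

/-!
# Packet SAV: folding the values of the leaves gives the powers of the matrix
-/

namespace Pool.Agent.Helper64.Tok2

open Pool.Agent.Helper65.LinSpace Pool.Agent.Helper81.Tok2 Finset
open Pool.Agent.Helper28.Ram hiding Mach

section

variable (m : Mach) {p : ℕ}

/-- The value of the level `u + n`, started with `c` at the level `u`. -/
def cvU (u w : ℕ) (c : ZMod p) (sa sl : ℕ → ZMod p) : ℕ → ZMod p
  | 0 => c
  | n + 1 => (if m.gp w (u + n) = 0 then 0 else sa (u + n)) + sl (u + n) * cvU u w c sa sl n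

theorem cvU_zero (w : ℕ) (c : ZMod p) (sa sl : ℕ → ZMod p) (n : ℕ) :
    cvU m 0 w c sa sl n = m.cv p w c sa sl n := by
  induction n with
  | zero => rfl
  | succ n ih =>
    rw [cvU, Mach.cv, ih, Nat.zero_add]

theorem cvU_shift (u w : ℕ) (c : ZMod p) (sa sl : ℕ → ZMod p) (n : ℕ) :
    cvU m u w c sa sl (n + 1) =
      cvU m (u + 1) w ((if m.gp w u = 0 then 0 else sa u) + sl u * c) sa sl n := by
  induction n with
  | zero => simp [cvU]
  | succ n ih =>
    rw [cvU, ih, cvU, show u + (n + 1) = u + 1 + n by ring]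

theorem cvU_congr (u w : ℕ) (c : ZMod p) {sa sl sa' sl' : ℕ → ZMod p}
    (h : ∀ j, u ≤ j → sa j = sa' j ∧ sl j = sl' j) (n : ℕ) :
    cvU m u w c sa sl n = cvU m u w c sa' sl' n := by
  induction n with
  | zero => rfl
  | succ n ih => rw [cvU, cvU, ih, (h (u + n) (by omega)).1, (h (u + n) (by omega)).2]

/-- Fold the value `c` of the level `u`. -/
def stepU (u w : ℕ) (c : ZMod p) (t : ZMod p × (ℕ → ZMod p) × (ℕ → ZMod p)) :
    ZMod p × (ℕ → ZMod p) × (ℕ → ZMod p) :=
  (if w + 1 = m.sv then t.1 * cvU m u w c t.2.1 t.2.2 (m.h - u) else t.1,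
    fun j => if m.rch w j = 1 ∧ m.sd w j = 1 then cvU m u w c t.2.1 t.2.2 (j + 1 - u) else t.2.1 j,
    fun j => if m.rch w j = 1 ∧ m.sd w j = 0 then cvU m u w c t.2.1 t.2.2 (j - u) else t.2.2 j)

/-- Agreement in the product and in the levels from `u` on. -/
def EqU (u : ℕ) (t t' : ZMod p × (ℕ → ZMod p) × (ℕ → ZMod p)) : Prop :=
  t.1 = t'.1 ∧ ∀ j, u ≤ j → t.2.1 j = t'.2.1 j ∧ t.2.2 j = t'.2.2 j

theorem EqU.refl (u : ℕ) (t : ZMod p × (ℕ → ZMod p) × (ℕ → ZMod p)) : EqU u t t :=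
  ⟨rfl, fun _ _ => ⟨rfl, rfl⟩⟩

theorem EqU.trans {u : ℕ} {t t' t'' : ZMod p × (ℕ → ZMod p) × (ℕ → ZMod p)} (h : EqU u t t')
    (h' : EqU u t' t'') : EqU u t t'' :=
  ⟨h.1.trans h'.1, fun j hj => ⟨(h.2 j hj).1.trans (h'.2 j hj).1, (h.2 j hj).2.trans (h'.2 j hj).2⟩⟩

theorem EqU.mono {u u' : ℕ} (hu : u ≤ u') {t t' : ZMod p × (ℕ → ZMod p) × (ℕ → ZMod p)}
    (h : EqU u t t') : EqU u' t t' :=
  ⟨h.1, fun j hj => h.2 j (hu.trans hj)⟩

theorem stepU_congr (u w : ℕ) (c : ZMod p) {t t' : ZMod p × (ℕ → ZMod p) × (ℕ → ZMod p)}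
    (h : EqU u t t') : EqU u (stepU m u w c t) (stepU m u w c t') := by
  have hc := fun n => cvU_congr m u w c h.2 n
  refine ⟨?_, fun j hj => ⟨?_, ?_⟩⟩
  · simp only [stepU, hc, h.1]
  · simp only [stepU, hc, (h.2 j hj).1]
  · simp only [stepU, hc, (h.2 j hj).2]

theorem fstep_eq {w : ℕ} (hw : w < m.sv) (c : ZMod p)
    (t : ZMod p × (ℕ → ZMod p) × (ℕ → ZMod p)) : m.fstep p w c t = stepU m 0 w c t := by
  have hne : w ≠ m.sv := hw.ne
  unfold Mach.fstep stepU Mach.nac
  refine Prod.ext ?_ (Prod.ext ?_ ?_)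
  · simp only [hne, if_false, cvU_zero, Nat.sub_zero]
  · funext j
    simp only [Mach.nsa, hw, true_and, cvU_zero, Nat.sub_zero]
  · funext j
    simp only [Mach.nsl, hw, true_and, cvU_zero, Nat.sub_zero]

/-! ### Digits -/

theorem Q_pos : 0 < 2 ^ (m.σ + 1) := by positivity

theorem dig_of_div {w w' u : ℕ} (h : w / (2 ^ (m.σ + 1)) ^ u = w' / (2 ^ (m.σ + 1)) ^ u) {j : ℕ}
    (hj : u ≤ j) : dig (2 ^ (m.σ + 1)) w j = dig (2 ^ (m.σ + 1)) w' j := by
  obtain ⟨k, rfl⟩ := Nat.exists_eq_add_of_le hj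
  unfold dig
  rw [pow_add, ← Nat.div_div_eq_div_mul, ← Nat.div_div_eq_div_mul, h]

theorem pe_congr {w w' u : ℕ} (h : w / (2 ^ (m.σ + 1)) ^ u = w' / (2 ^ (m.σ + 1)) ^ u) (e : ℕ)
    {t : ℕ} (ht : t + u ≤ m.h) : m.pe e w t = m.pe e w' t := by
  unfold Mach.pe
  induction t with
  | zero => rfl
  | succ t ih =>
    rw [nrec_succ, nrec_succ, ih (by omega)]
    have hd := dig_of_div m h (j := m.h - 1 - t) (by omega)
    simp only [Mach.sd, Mach.gp, hd]

theorem pf_congr {w w' u : ℕ} (h : w / (2 ^ (m.σ + 1)) ^ u = w' / (2 ^ (m.σ + 1)) ^ u) (f : ℕ)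
    {t : ℕ} (ht : t + u ≤ m.h) : m.pf f w t = m.pf f w' t := by
  unfold Mach.pf
  induction t with
  | zero => rfl
  | succ t ih =>
    rw [nrec_succ, nrec_succ, ih (by omega)]
    have hd := dig_of_div m h (j := m.h - 1 - t) (by omega)
    simp only [Mach.sd, Mach.gp, hd]

theorem dig_mul (V u : ℕ) : dig (2 ^ (m.σ + 1)) (V * (2 ^ (m.σ + 1)) ^ u) u = V % 2 ^ (m.σ + 1) := by
  unfold dig
  rw [Nat.mul_div_cancel _ (pow_pos (Q_pos m) u)]

/-- The last leaf of the block `V` of the level `u`. -/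
theorem last_div (V u : ℕ) :
    ((V + 1) * (2 ^ (m.σ + 1)) ^ u - 1) / (2 ^ (m.σ + 1)) ^ u = V := by
  have hp := pow_pos (Q_pos m) u
  have e : (V + 1) * (2 ^ (m.σ + 1)) ^ u - 1 = V * (2 ^ (m.σ + 1)) ^ u +
      ((2 ^ (m.σ + 1)) ^ u - 1) := by
    rw [add_mul, one_mul]
    omega
  rw [e, mul_comm, Nat.mul_add_div hp, Nat.div_eq_of_lt (by omega), add_zero]

theorem last_mod (V u : ℕ) :
    ((V + 1) * (2 ^ (m.σ + 1)) ^ u - 1) % (2 ^ (m.σ + 1)) ^ u = (2 ^ (m.σ + 1)) ^ u - 1 := by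
  have hp := pow_pos (Q_pos m) u
  have e : (V + 1) * (2 ^ (m.σ + 1)) ^ u - 1 = ((2 ^ (m.σ + 1)) ^ u - 1) +
      V * (2 ^ (m.σ + 1)) ^ u := by
    rw [add_mul, one_mul]
    omega
  rw [e, Nat.add_mul_mod_self_right, Nat.mod_eq_of_lt (by omega)]

theorem last_dig (V u : ℕ) :
    dig (2 ^ (m.σ + 1)) ((V + 1) * (2 ^ (m.σ + 1)) ^ u - 1) u = V % 2 ^ (m.σ + 1) := by
  unfold dig
  rw [last_div]

theorem last_rch (V u : ℕ) : m.rch ((V + 1) * (2 ^ (m.σ + 1)) ^ u - 1) u = 1 := by
  unfold Mach.rch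
  rw [last_mod]
  exact eq01_of rfl

/-- If the digit is not the last one, nothing is passed on. -/
theorem last_not_rch {V u j : ℕ} (hV : V % 2 ^ (m.σ + 1) + 1 ≠ 2 ^ (m.σ + 1)) (hj : u < j) :
    m.rch ((V + 1) * (2 ^ (m.σ + 1)) ^ u - 1) j ≠ 1 := by
  intro h
  unfold Mach.rch eq01 at h
  split_ifs at h with h1
  -- the digit `u`
  have h2 : dig (2 ^ (m.σ + 1)) (((V + 1) * (2 ^ (m.σ + 1)) ^ u - 1) % (2 ^ (m.σ + 1)) ^ j) u =
      dig (2 ^ (m.σ + 1)) ((2 ^ (m.σ + 1)) ^ j - 1) u := by rw [h1]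
  rw [dig_mod_pow _ _ hj, last_dig] at h2
  have h3 : dig (2 ^ (m.σ + 1)) ((2 ^ (m.σ + 1)) ^ j - 1) u = 2 ^ (m.σ + 1) - 1 := by
    obtain ⟨k, rfl⟩ := Nat.exists_eq_add_of_lt hj
    have e : (2 ^ (m.σ + 1)) ^ (u + k + 1) - 1 =
        (((2 ^ (m.σ + 1)) ^ (k + 1) - 1) + 1) * (2 ^ (m.σ + 1)) ^ u - 1 := by
      rw [Nat.sub_add_cancel (Nat.one_le_pow _ _ (Q_pos m)), ← pow_add]
      congr 2
      ring
    rw [e, last_dig]
    have h4 : (2 ^ (m.σ + 1)) ^ (k + 1) - 1 =
        ((2 ^ (m.σ + 1)) ^ k - 1 + 1) * (2 ^ (m.σ + 1)) ^ 1 - 1 := by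
      rw [Nat.sub_add_cancel (Nat.one_le_pow _ _ (Q_pos m)), ← pow_add]
    have h5 := last_mod m ((2 ^ (m.σ + 1)) ^ k - 1) 1
    rw [← h4, pow_one] at h5
    exact h5
  rw [h3] at h2
  have := Q_pos m
  omega

theorem last_ne {V u : ℕ} (hV : V % 2 ^ (m.σ + 1) + 1 ≠ 2 ^ (m.σ + 1)) (hu : u < m.h) :
    (V + 1) * (2 ^ (m.σ + 1)) ^ u - 1 + 1 ≠ m.sv := by
  intro h
  have h0 := Q_pos m
  have hp := pow_pos (Q_pos m) u
  have h1 : 1 ≤ (V + 1) * (2 ^ (m.σ + 1)) ^ u := Nat.one_le_iff_ne_zero.2 (by positivity)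
  rw [Nat.sub_add_cancel h1] at h
  unfold Mach.sv at h
  obtain ⟨k, hk⟩ := Nat.exists_eq_add_of_lt hu
  rw [hk, show u + k + 1 = (k + 1) + u by ring, pow_add _ (k + 1) u] at h
  have h2 : V + 1 = (2 ^ (m.σ + 1)) ^ (k + 1) := Nat.eq_of_mul_eq_mul_right hp h
  rw [pow_succ] at h2
  have h3 : (V + 1) % 2 ^ (m.σ + 1) = 0 := by
    rw [h2, Nat.mul_mod_left]
  have h4 := Nat.mod_lt V h0
  rw [Nat.add_mod] at h3
  have hσ : 2 ≤ 2 ^ (m.σ + 1) := by
    rw [pow_succ]
    have := Nat.one_le_two_pow (n := m.σ)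
    omega
  rw [Nat.mod_eq_of_lt (show 1 < 2 ^ (m.σ + 1) by omega)] at h3
  rw [Nat.mod_eq_of_lt (by omega)] at h3
  omega

/-! ### One level -/

theorem sum_split (f : ℕ → ZMod p) (g : ℕ) (s : ZMod p) :
    (if g = 0 then 0 else (if g = 0 then s else ∑ x ∈ range g, f x)) + f g =
      ∑ x ∈ range (g + 1), f x := by
  rw [sum_range_succ]
  by_cases h : g = 0
  · subst h
    simp
  · simp [h]

variable (Fu : ℕ → ℕ → ℕ → ZMod p)

/-- The state after `n` blocks of the level `u`. -/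
def stn (u E Fp n : ℕ) (t : ZMod p × (ℕ → ZMod p) × (ℕ → ZMod p)) :
    ZMod p × (ℕ → ZMod p) × (ℕ → ZMod p) :=
  (t.1,
    fun j => if j = u then (if n / 2 = 0 then t.2.1 u
      else ∑ g ∈ range (n / 2), Fu u E g * Fu u g Fp) else t.2.1 j,
    fun j => if j = u then (if (n + 1) / 2 = 0 then t.2.2 u
      else Fu u E ((n + 1) / 2 - 1)) else t.2.2 j)

theorem level (hF : ∀ u e f, Fu (u + 1) e f = ∑ g ∈ range (2 ^ m.σ), Fu u e g * Fu u g f)
    (e f : ℕ) : ∀ u ≤ m.h, ∀ W < (2 ^ (m.σ + 1)) ^ (m.h - u),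
    ∀ t : ZMod p × (ℕ → ZMod p) × (ℕ → ZMod p),
    EqU u (iter (fun x t => m.fstep p (W * (2 ^ (m.σ + 1)) ^ u + x)
        (Fu 0 (m.pe e (W * (2 ^ (m.σ + 1)) ^ u + x) m.h)
          (m.pf f (W * (2 ^ (m.σ + 1)) ^ u + x) m.h)) t) ((2 ^ (m.σ + 1)) ^ u) t)
      (stepU m u ((W + 1) * (2 ^ (m.σ + 1)) ^ u - 1)
        (Fu u (m.pe e (W * (2 ^ (m.σ + 1)) ^ u) (m.h - u))
          (m.pf f (W * (2 ^ (m.σ + 1)) ^ u) (m.h - u))) t) := by
  intro u
  induction u with
  | zero =>
    intro _ W hW t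
    have hW' : W < m.sv := by
      unfold Mach.sv
      simpa using hW
    have e1 : iter (fun x t => m.fstep p (W * (2 ^ (m.σ + 1)) ^ 0 + x)
        (Fu 0 (m.pe e (W * (2 ^ (m.σ + 1)) ^ 0 + x) m.h)
          (m.pf f (W * (2 ^ (m.σ + 1)) ^ 0 + x) m.h)) t) ((2 ^ (m.σ + 1)) ^ 0) t =
        m.fstep p W (Fu 0 (m.pe e W m.h) (m.pf f W m.h)) t := by
      simp only [pow_zero, mul_one]
      rfl
    rw [e1, fstep_eq m hW']
    simp only [pow_zero, mul_one, Nat.add_sub_cancel, Nat.sub_zero]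
    exact EqU.refl _ _
  | succ u ih =>
    intro hu W hW t
    set Q := 2 ^ (m.σ + 1) with hQ
    have hQ0 : 0 < Q := Q_pos m
    have hQ2 : Q = 2 * 2 ^ m.σ := by rw [hQ, pow_succ]; ring
    have hσ1 : 1 ≤ 2 ^ m.σ := Nat.one_le_two_pow
    -- the endpoints
    set E := m.pe e (W * Q ^ (u + 1)) (m.h - (u + 1)) with hE
    set Fp := m.pf f (W * Q ^ (u + 1)) (m.h - (u + 1)) with hFp
    -- the blocks of the level `u`
    set w : ℕ → ℕ := fun d => ((W * Q + d) + 1) * Q ^ u - 1 with hw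
    set c : ℕ → ZMod p := fun d => Fu u (m.pe e ((W * Q + d) * Q ^ u) (m.h - u))
      (m.pf f ((W * Q + d) * Q ^ u) (m.h - u)) with hc
    have hWQ : ∀ d < Q, W * Q + d < Q ^ (m.h - u) := by
      intro d hd
      have h1 : m.h - u = (m.h - (u + 1)) + 1 := by omega
      rw [h1, pow_succ]
      calc W * Q + d < W * Q + Q := by omega
        _ = (W + 1) * Q := by ring
        _ ≤ Q ^ (m.h - (u + 1)) * Q := Nat.mul_le_mul_right _ hW
    have hmod : ∀ d < Q, (W * Q + d) % Q = d := by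
      intro d hd
      rw [mul_comm W Q, Nat.mul_add_mod, Nat.mod_eq_of_lt hd]
    have hsd : ∀ d < Q, m.sd (w d) u = d % 2 ∧ m.gp (w d) u = d / 2 := by
      intro d hd
      have := last_dig m (W * Q + d) u
      rw [← hQ, hmod d hd] at this
      simp only [Mach.sd, Mach.gp, hw, ← hQ, this, and_self]
    have hcd : ∀ d < Q, c d = if d % 2 = 0 then Fu u E (d / 2) else Fu u (d / 2) Fp := by
      intro d hd
      have h1 : m.h - u = (m.h - (u + 1)) + 1 := by omega
      have h2 : m.h - 1 - (m.h - (u + 1)) = u := by omega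
      have h3 : dig Q ((W * Q + d) * Q ^ u) u = d := by
        have := dig_mul m (W * Q + d) u
        rw [← hQ, hmod d hd] at this
        exact this
      have h4 : ((W * Q + d) * Q ^ u) / Q ^ (u + 1) = (W * Q ^ (u + 1)) / Q ^ (u + 1) := by
        rw [Nat.mul_div_cancel _ (pow_pos hQ0 _), pow_succ, mul_comm (Q ^ u) Q,
          Nat.mul_div_mul_right _ _ (pow_pos hQ0 _)]
        rw [mul_comm W Q, Nat.mul_add_div hQ0, Nat.div_eq_of_lt hd, add_zero]
      have h5 : m.pe e ((W * Q + d) * Q ^ u) (m.h - u) = if d % 2 = 0 then E else d / 2 := by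
        have h6 : m.pe e ((W * Q + d) * Q ^ u) (m.h - (u + 1)) = E :=
          pe_congr m h4 e (by omega)
        rw [h1]
        unfold Mach.pe at h6 ⊢
        rw [nrec_succ, h6, h2]
        simp only [Mach.sd, Mach.gp, ← hQ, h3, ifz]
      have h7 : m.pf f ((W * Q + d) * Q ^ u) (m.h - u) = if d % 2 = 0 then d / 2 else Fp := by
        have h6 : m.pf f ((W * Q + d) * Q ^ u) (m.h - (u + 1)) = Fp :=
          pf_congr m h4 f (by omega)
        rw [h1]
        unfold Mach.pf at h6 ⊢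
        rw [nrec_succ, h6, h2]
        simp only [Mach.sd, Mach.gp, ← hQ, h3, ifz]
      simp only [hc]
      rw [h5, h7]
      split_ifs <;> rfl
    -- the iteration as an iteration of blocks
    have hit : iter (fun x t => m.fstep p (W * Q ^ (u + 1) + x)
        (Fu 0 (m.pe e (W * Q ^ (u + 1) + x) m.h) (m.pf f (W * Q ^ (u + 1) + x) m.h)) t)
          (Q ^ (u + 1)) t =
        iter (fun d => iter (fun x t => m.fstep p ((W * Q + d) * Q ^ u + x)
          (Fu 0 (m.pe e ((W * Q + d) * Q ^ u + x) m.h)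
            (m.pf f ((W * Q + d) * Q ^ u + x) m.h)) t) (Q ^ u)) Q t := by
      rw [show Q ^ (u + 1) = Q * Q ^ u by ring, iter_mul]
      have h1 : ∀ d x : ℕ, W * (Q * Q ^ u) + (d * Q ^ u + x) = (W * Q + d) * Q ^ u + x := by
        intro d x
        ring
      simp only [h1]
    have hblk : ∀ n ≤ Q, EqU u (iter (fun d => iter (fun x t => m.fstep p ((W * Q + d) * Q ^ u + x)
          (Fu 0 (m.pe e ((W * Q + d) * Q ^ u + x) m.h)
            (m.pf f ((W * Q + d) * Q ^ u + x) m.h)) t) (Q ^ u)) n t)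
        (iter (fun d t => stepU m u (w d) (c d) t) n t) := by
      intro n hn
      induction n with
      | zero => exact EqU.refl _ _
      | succ n ihn =>
        have h1 := ihn (by omega)
        have h2 := ih (by omega) (W * Q + n) (hWQ n (by omega))
          (iter (fun d => iter (fun x t => m.fstep p ((W * Q + d) * Q ^ u + x)
          (Fu 0 (m.pe e ((W * Q + d) * Q ^ u + x) m.h)
            (m.pf f ((W * Q + d) * Q ^ u + x) m.h)) t) (Q ^ u)) n t)
        exact h2.trans (stepU_congr m u (w n) (c n) h1)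
    have hst : ∀ n < Q, EqU u (iter (fun d t => stepU m u (w d) (c d) t) n t)
        (stn Fu u E Fp n t) := by
      intro n hn
      induction n with
      | zero =>
        refine ⟨rfl, fun j _ => ⟨?_, ?_⟩⟩
        · simp only [stn, iter]
          by_cases hj : j = u
          · subst hj; simp
          · simp [hj]
        · simp only [stn, iter]
          by_cases hj : j = u
          · subst hj; simp
          · simp [hj]
      | succ n ihn =>
        have h1 := stepU_congr m u (w n) (c n) (ihn (by omega))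
        refine EqU.trans h1 ?_
        have hdn : (W * Q + n) % Q + 1 ≠ Q := by
          rw [hmod n (by omega)]
          omega
        have hr : m.rch (w n) u = 1 := last_rch m (W * Q + n) u
        obtain ⟨hs1, hs2⟩ := hsd n (by omega)
        have hcn := hcd n (by omega)
        refine ⟨?_, fun j hj => ⟨?_, ?_⟩⟩
        · simp only [stepU, stn]
          rw [if_neg (last_ne m hdn (by omega))]
        · simp only [stepU]
          rcases hj.eq_or_lt with hj | hj
          · subst hj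
            rw [hr, hs1]
            have e1 : u + 1 - u = 0 + 1 := by omega
            rw [e1, cvU_shift, hs2]
            simp only [stn, cvU, if_true, true_and]
            rcases Nat.mod_two_eq_zero_or_one n with h2 | h2
            · have e2 : (n + 1) / 2 = n / 2 := by omega
              rw [if_neg (show ¬ n % 2 = 1 by omega), e2]
            · have e2 : (n + 1) / 2 = n / 2 + 1 := by omega
              rw [if_pos h2, hcn, if_neg (show ¬ n % 2 = 0 by omega), e2,
                if_neg (show ¬ n / 2 + 1 = 0 by omega)]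
              have e3 : (if (n + 1) / 2 = 0 then t.2.2 u else Fu u E ((n + 1) / 2 - 1)) =
                  Fu u E (n / 2) := by
                rw [e2, if_neg (show ¬ n / 2 + 1 = 0 by omega), Nat.add_sub_cancel]
              first
                | rw [e3]
                | (rw [if_neg (show ¬ n / 2 + 1 = 0 by omega), Nat.add_sub_cancel])
              exact sum_split (fun g => Fu u E g * Fu u g Fp) (n / 2) (t.2.1 u)
          · have hnr := last_not_rch m hdn hj
            have h3 : ¬ (m.rch (w n) j = 1 ∧ m.sd (w n) j = 1) := fun h => hnr h.1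
            rw [if_neg h3]
            simp only [stn, if_neg hj.ne']
        · simp only [stepU]
          rcases hj.eq_or_lt with hj | hj
          · subst hj
            rw [hr, hs1, Nat.sub_self]
            simp only [stn, cvU, if_true, true_and]
            rcases Nat.mod_two_eq_zero_or_one n with h2 | h2
            · have e2 : (n + 1 + 1) / 2 = n / 2 + 1 := by omega
              rw [if_pos h2, hcn, if_pos h2, e2, if_neg (show ¬ n / 2 + 1 = 0 by omega),
                Nat.add_sub_cancel]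
            · have e2 : (n + 1 + 1) / 2 = (n + 1) / 2 := by omega
              rw [if_neg (show ¬ n % 2 = 0 by omega), e2]
          · have hnr := last_not_rch m hdn hj
            have h3 : ¬ (m.rch (w n) j = 1 ∧ m.sd (w n) j = 0) := fun h => hnr h.1
            rw [if_neg h3]
            simp only [stn, if_neg hj.ne']
    -- the last block
    rw [hit]
    have hQ1 : Q = (Q - 1) + 1 := by omega
    have h1 : EqU u (iter (fun d => iter (fun x t => m.fstep p ((W * Q + d) * Q ^ u + x)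
          (Fu 0 (m.pe e ((W * Q + d) * Q ^ u + x) m.h)
            (m.pf f ((W * Q + d) * Q ^ u + x) m.h)) t) (Q ^ u)) Q t)
        (stepU m u (w (Q - 1)) (c (Q - 1)) (stn Fu u E Fp (Q - 1) t)) := by
      refine (hblk Q le_rfl).trans ?_
      have h2 := stepU_congr m u (w (Q - 1)) (c (Q - 1)) (hst (Q - 1) (by omega))
      have h3 : iter (fun d t => stepU m u (w d) (c d) t) Q t =
          stepU m u (w (Q - 1)) (c (Q - 1))
            (iter (fun d t => stepU m u (w d) (c d) t) (Q - 1) t) := by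
        conv_lhs => rw [hQ1]
        rfl
      rw [h3]
      exact h2
    refine (h1.mono (Nat.le_succ u)).trans ?_
    have hw1 : w (Q - 1) = (W + 1) * Q ^ (u + 1) - 1 := by
      simp only [hw]
      congr 1
      have : W * Q + (Q - 1) + 1 = (W + 1) * Q := by
        rw [add_mul, one_mul]
        omega
      rw [this]
      ring
    obtain ⟨hs1, hs2⟩ := hsd (Q - 1) (by omega)
    have hcn := hcd (Q - 1) (by omega)
    -- the value which is passed on
    have hC : (if m.gp (w (Q - 1)) u = 0 then 0 else (stn Fu u E Fp (Q - 1) t).2.1 u) +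
        (stn Fu u E Fp (Q - 1) t).2.2 u * c (Q - 1) = Fu (u + 1) E Fp := by
      rw [hs2, hcn, if_neg (show ¬ (Q - 1) % 2 = 0 by omega), hF]
      simp only [stn, if_true]
      have e2 : (Q - 1 + 1) / 2 = (Q - 1) / 2 + 1 := by omega
      have e3 : (Q - 1) / 2 + 1 = 2 ^ m.σ := by omega
      rw [e2, if_neg (show ¬ ((Q - 1) / 2 + 1 = 0) by omega), Nat.add_sub_cancel,
        sum_split (fun g => Fu u E g * Fu u g Fp) ((Q - 1) / 2) (t.2.1 u), e3]
    have hcv : ∀ n, cvU m u (w (Q - 1)) (c (Q - 1)) (stn Fu u E Fp (Q - 1) t).2.1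
        (stn Fu u E Fp (Q - 1) t).2.2 (n + 1) =
        cvU m (u + 1) (w (Q - 1)) (Fu (u + 1) E Fp) t.2.1 t.2.2 n := by
      intro n
      rw [cvU_shift, hC]
      refine cvU_congr m _ _ _ (fun j hj => ?_) n
      simp only [stn, if_neg (show ¬ j = u by omega), and_self]
    rw [← hw1]
    refine ⟨?_, fun j hj => ⟨?_, ?_⟩⟩
    · simp only [stepU]
      have e2 : m.h - u = (m.h - (u + 1)) + 1 := by omega
      rw [e2, hcv]
      rfl
    · simp only [stepU]
      have e2 : j + 1 - u = (j + 1 - (u + 1)) + 1 := by omega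
      rw [e2, hcv]
      simp only [stn, if_neg (show ¬ j = u by omega)]
    · simp only [stepU]
      have e2 : j - u = (j - (u + 1)) + 1 := by omega
      rw [e2, hcv]
      simp only [stn, if_neg (show ¬ j = u by omega)]

end

theorem SAV : SAV_stmt := by
  intro m p _ k i y X t ht
  have hsv : 0 < m.sv := pow_pos (Q_pos m) _
  -- one macro step
  have hone : ∀ r, ∀ t : ZMod p × (ℕ → ZMod p) × (ℕ → ZMod p),
      (iter (fun w t => m.fstep p ((r * (m.sv + 1) + w) % (m.sv + 1))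
        (m.lv p k i y X (r * (m.sv + 1) + w)) t) (m.sv + 1) t).1 = t.1 * m.fc p k i y r X := by
    intro r t
    have hdiv : ∀ w ≤ m.sv, (r * (m.sv + 1) + w) / (m.sv + 1) = r ∧
        (r * (m.sv + 1) + w) % (m.sv + 1) = w := by
      intro w hw
      constructor
      · rw [mul_comm, Nat.mul_add_div (Nat.succ_pos _), Nat.div_eq_of_lt (by omega), add_zero]
      · rw [mul_comm, Nat.mul_add_mod, Nat.mod_eq_of_lt (by omega)]
    have hval : ∀ w < m.sv, m.lv p k i y X (r * (m.sv + 1) + w) =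
        m.F p k i y r X 0 (m.pe (dig (2 ^ m.σ) y (2 * r)) w m.h)
          (m.pf (dig (2 ^ m.σ) y (2 * r + 1)) w m.h) := by
      intro w hw
      obtain ⟨h1, h2⟩ := hdiv w hw.le
      have h3 : m.bf i y (r * (m.sv + 1) + w) = m.chk0 i y r (m.le y r w) (m.lf y r w) := by
        funext z
        unfold Mach.bf
        rw [h1, h2, eq01_ne hw.ne, ifz_zero]
      have h4 : m.qy y (r * (m.sv + 1) + w) = m.A (m.le y r w) := by
        unfold Mach.qy
        rw [h1, h2, eq01_ne hw.ne, ifz_zero]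
      unfold Mach.lv
      rw [h3, h4]
      rfl
    have hlast : m.lv p k i y X (r * (m.sv + 1) + m.sv) =
        fhat p (m.nv i) (m.chk1 i y r) 0
          (m.vars p i X (m.T p k (m.A (dig (2 ^ m.σ) y (2 * r + 1))))) := by
      obtain ⟨h1, h2⟩ := hdiv m.sv le_rfl
      have h3 : m.bf i y (r * (m.sv + 1) + m.sv) = m.chk1 i y r := by
        funext z
        unfold Mach.bf
        rw [h1, h2, eq01_of rfl, ifz_ne one_ne_zero]
      have h4 : m.qy y (r * (m.sv + 1) + m.sv) = m.A (dig (2 ^ m.σ) y (2 * r + 1)) := by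
        unfold Mach.qy
        rw [h1, h2, eq01_of rfl, ifz_ne one_ne_zero]
      unfold Mach.lv
      rw [h3, h4]
    have h1 := level m (m.F p k i y r X) (fun _ _ _ => rfl) (dig (2 ^ m.σ) y (2 * r))
      (dig (2 ^ m.σ) y (2 * r + 1)) m.h le_rfl 0 (by simp) t
    have h2 : iter (fun w t => m.fstep p ((r * (m.sv + 1) + w) % (m.sv + 1))
        (m.lv p k i y X (r * (m.sv + 1) + w)) t) m.sv t =
        iter (fun x t => m.fstep p (0 * (2 ^ (m.σ + 1)) ^ m.h + x)
        (m.F p k i y r X 0 (m.pe (dig (2 ^ m.σ) y (2 * r)) (0 * (2 ^ (m.σ + 1)) ^ m.h + x) m.h)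
          (m.pf (dig (2 ^ m.σ) y (2 * r + 1)) (0 * (2 ^ (m.σ + 1)) ^ m.h + x) m.h)) t)
          ((2 ^ (m.σ + 1)) ^ m.h) t := by
      refine iter_congr (fun w hw s => ?_) t
      have hw' : w < m.sv := hw
      rw [Nat.zero_mul, Nat.zero_add, (hdiv w hw'.le).2, hval w hw']
    have h3 : (iter (fun w t => m.fstep p ((r * (m.sv + 1) + w) % (m.sv + 1))
        (m.lv p k i y X (r * (m.sv + 1) + w)) t) m.sv t).1 =
        t.1 * m.F p k i y r X m.h (dig (2 ^ m.σ) y (2 * r)) (dig (2 ^ m.σ) y (2 * r + 1)) := by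
      rw [h2, h1.1]
      simp only [stepU]
      have e1 : (0 + 1) * (2 ^ (m.σ + 1)) ^ m.h - 1 + 1 = m.sv := by
        rw [Nat.zero_add, Nat.one_mul]
        exact Nat.sub_add_cancel hsv
      rw [if_pos e1, Nat.sub_self]
      rfl
    show (m.fstep p ((r * (m.sv + 1) + m.sv) % (m.sv + 1)) (m.lv p k i y X (r * (m.sv + 1) + m.sv))
      (iter (fun w t => m.fstep p ((r * (m.sv + 1) + w) % (m.sv + 1))
        (m.lv p k i y X (r * (m.sv + 1) + w)) t) m.sv t)).1 = _
    have e0 : ∀ (c : ZMod p) (s : ZMod p × (ℕ → ZMod p) × (ℕ → ZMod p)),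
        (m.fstep p m.sv c s).1 = s.1 * c := by
      intro c s
      simp only [Mach.fstep, Mach.nac, if_true]
    rw [(hdiv m.sv le_rfl).2, hlast, e0, h3]
    unfold Mach.fc
    ring
  -- all macro steps
  unfold Mach.nl
  rw [iter_mul]
  have hall : ∀ n, (iter (fun d => iter (fun w t => m.fstep p ((d * (m.sv + 1) + w) % (m.sv + 1))
      (m.lv p k i y X (d * (m.sv + 1) + w)) t) (m.sv + 1)) n t).1 =
      ∏ r ∈ range n, m.fc p k i y r X := by
    intro n
    induction n with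
    | zero => simpa [iter] using ht
    | succ n ih =>
      rw [prod_range_succ, ← ih]
      exact hone n _
  exact hall m.b

end Pool.Agent.Helper64.Tok2
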